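import Pool.Agent.Y429.LP.Sum

/-! Few pairs of different primes lie near the curve `p = q ^ s`. -/

set_option autoImplicit false

namespace Pool.Agent.Y429.LP

open Set Filter Topology

/-- pairs near the curve -/
def Nr (θ s : ℝ) (p q : ℕ) : Prop := q ≠ p ∧ |Real.log p - s * Real.log q| ≤ θ

lemma quarter {a c : ℕ} (hac : a < c) (h : (a : ℝ) ≤ ((c : ℝ) - a) ^ 4) :
    (a : ℝ) + (a : ℝ) ^ (1 / 4 : ℝ) ≤ c := by
  have h0 : (0 : ℝ) < (c : ℝ) - a := by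
    have : (a : ℝ) < c := by exact_mod_cast hac
    linarith
  have h1 : (a : ℝ) ^ (1 / 4 : ℝ) ≤ (((c : ℝ) - a) ^ 4) ^ (1 / 4 : ℝ) :=
    Real.rpow_le_rpow (Nat.cast_nonneg a) h (by norm_num)
  have h2 : (((c : ℝ) - a) ^ 4) ^ (1 / 4 : ℝ) = (c : ℝ) - a := by
    rw [← Real.rpow_natCast, ← Real.rpow_mul h0.le]
    norm_num
  rw [h2] at h1
  linarith

open Classical in
theorem main (S : ℕ → Finset ℕ) (hS : ∀ X, ∀ p ∈ S X, p.Prime ∧ p ≤ X) (ε : ℝ) (hε : 0 < ε) :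
    ∃ η T0 : ℝ, 0 < η ∧ 1 ≤ T0 ∧ ∀ T : ℝ, T0 ≤ T →
    ∀ X : ℕ, (X : ℝ) ≤ T ^ (1 / 64 : ℝ) → ∀ u : ℕ → ℝ,
    (∀ p : ℕ, p.Prime → |u p| ≤ 1 / Real.sqrt p ∧ |u p| ≤ η * Real.log p) →
    ∀ s : ℝ, 7 / 8 ≤ s → s ≤ 9 / 8 →
      ∑ p ∈ S X, ∑ q ∈ (S X).filter (fun q => Nr (T ^ (-(1 / 2) : ℝ)) s p q),
        |u p| * |u q| ≤ ε := by
  -- the threshold
  obtain ⟨Y0, hY1, hY0⟩ : ∃ Y0 : ℕ, 1 ≤ Y0 ∧ 64 * (Y0 : ℝ) ^ (-(1 / 8) : ℝ) ≤ ε / 2 := by
    have h : Tendsto (fun n : ℕ => 64 * (n : ℝ) ^ (-(1 / 8) : ℝ)) atTop (𝓝 (64 * 0)) :=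
      ((tendsto_rpow_neg_atTop (by norm_num : (0 : ℝ) < 1 / 8)).comp
        tendsto_natCast_atTop_atTop).const_mul 64
    rw [mul_zero] at h
    obtain ⟨n, hn1, hn2⟩ := ((h.eventually_le_const (half_pos hε)).and
      (eventually_ge_atTop 1)).exists
    exact ⟨n, hn2, hn1⟩
  have hl0 : 0 ≤ Real.log Y0 := Real.log_nonneg (by exact_mod_cast hY1)
  have hYp : (0 : ℝ) < Y0 := by exact_mod_cast hY1
  have hη : 0 < ε / (2 * Y0 * (Real.log Y0 + 1)) := by positivity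
  refine ⟨ε / (2 * Y0 * (Real.log Y0 + 1)), 1, hη, le_rfl, ?_⟩
  intro T hT X hX u hu s hs1 hs2
  obtain ⟨θ, hθd⟩ : ∃ θ : ℝ, θ = T ^ (-(1 / 2) : ℝ) := ⟨_, rfl⟩
  rw [← hθd]
  have hT0 : 0 < T := by linarith
  have hθ0 : 0 ≤ θ := by rw [hθd]; positivity
  have hθ1 : θ ≤ 1 := by
    rw [hθd]
    exact Real.rpow_le_one_of_one_le_of_nonpos hT (by norm_num)
  have hθ : θ * (X : ℝ) ^ 32 ≤ 1 := by
    have h1 : (X : ℝ) ^ 32 ≤ (T ^ (1 / 64 : ℝ)) ^ 32 := pow_le_pow_left₀ (Nat.cast_nonneg _) hX 32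
    have h2 : (T ^ (1 / 64 : ℝ)) ^ 32 = T ^ (1 / 2 : ℝ) := by
      rw [← Real.rpow_natCast, ← Real.rpow_mul hT0.le]
      norm_num
    rw [h2] at h1
    calc θ * (X : ℝ) ^ 32 ≤ θ * T ^ (1 / 2 : ℝ) := mul_le_mul_of_nonneg_left h1 hθ0
      _ = 1 := by
        rw [hθd, ← Real.rpow_add hT0]
        norm_num
  obtain ⟨F, hF⟩ : ∃ F : ℕ → ℝ, F = fun q => ∑ p ∈ (S X).filter (fun p => Nr θ s p q),
    |u p| * |u q| := ⟨_, rfl⟩
  have hsum : ∑ p ∈ S X, ∑ q ∈ (S X).filter (fun q => Nr θ s p q), |u p| * |u q| =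
      ∑ q ∈ S X, F q := by
    rw [hF]
    refine Finset.sum_comm' fun p q => ?_
    simp only [Finset.mem_filter]
    tauto
  rw [hsum]
  -- bounds for `F`
  have hFle : ∀ q ∈ S X, ∀ B : ℝ, 0 ≤ B → (∀ p ∈ S X, Nr θ s p q → |u p| * |u q| ≤ B) →
      F q ≤ B := by
    intro q hq B hB h
    rw [hF]
    have hcard : ((S X).filter (fun p => Nr θ s p q)).card ≤ 1 := by
      rw [Finset.card_le_one]
      intro a ha b hb
      rw [Finset.mem_filter] at ha hb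
      exact uniq hθ (hS X a ha.1).1.two_le (hS X b hb.1).1.two_le (hS X a ha.1).2
        (hS X b hb.1).2 ha.2.2 hb.2.2
    calc ∑ p ∈ (S X).filter (fun p => Nr θ s p q), |u p| * |u q|
        ≤ ((S X).filter (fun p => Nr θ s p q)).card • B :=
          Finset.sum_le_card_nsmul _ _ _ fun p hp => h p (Finset.mem_filter.1 hp).1
            (Finset.mem_filter.1 hp).2
      _ ≤ 1 • B := nsmul_le_nsmul_left hB hcard
      _ = B := one_nsmul B
  obtain ⟨Q, hQ⟩ : ∃ Q : Finset ℕ, Q = (S X).filter (fun q => ∃ p ∈ S X, Nr θ s p q) :=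
    ⟨_, rfl⟩
  have hsQ : ∑ q ∈ S X, F q = ∑ q ∈ Q, F q := by
    rw [hQ]
    symm
    refine Finset.sum_subset (Finset.filter_subset _ _) fun q hq hq' => ?_
    rw [hF]
    simp only
    rw [Finset.sum_eq_zero]
    intro p hp
    exfalso
    rw [Finset.mem_filter] at hp
    exact hq' (Finset.mem_filter.2 ⟨hq, p, hp.1, hp.2⟩)
  rw [hsQ, ← Finset.sum_filter_add_sum_filter_not Q (fun q => q < Y0)]
  have part1 : ∑ q ∈ Q.filter (fun q => q < Y0), F q ≤ ε / 2 := by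
    have hb : ∀ q ∈ Q.filter (fun q => q < Y0),
        F q ≤ ε / (2 * Y0 * (Real.log Y0 + 1)) * Real.log Y0 := by
      intro q hq
      rw [Finset.mem_filter, hQ, Finset.mem_filter] at hq
      obtain ⟨⟨hq1, -⟩, hq2⟩ := hq
      refine hFle q hq1 _ (by positivity) fun p hp _ => ?_
      have hpp := (hS X p hp).1
      have hqp := (hS X q hq1).1
      have e1 : |u p| ≤ 1 := by
        refine (hu p hpp).1.trans ?_
        have : (1 : ℝ) ≤ p := by exact_mod_cast hpp.one_le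
        rw [div_le_one (by positivity)]
        rw [← Real.sqrt_one]
        exact Real.sqrt_le_sqrt this
      have e2 : |u q| ≤ ε / (2 * Y0 * (Real.log Y0 + 1)) * Real.log Y0 := by
        refine (hu q hqp).2.trans (mul_le_mul_of_nonneg_left ?_ hη.le)
        have : (q : ℝ) ≤ Y0 := by exact_mod_cast hq2.le
        exact Real.log_le_log (by exact_mod_cast hqp.pos) this
      calc |u p| * |u q| ≤ 1 * (ε / (2 * Y0 * (Real.log Y0 + 1)) * Real.log Y0) :=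
            mul_le_mul e1 e2 (abs_nonneg _) zero_le_one
        _ = _ := one_mul _
    have hc : (Q.filter (fun q => q < Y0)).card ≤ Y0 := by
      calc (Q.filter (fun q => q < Y0)).card ≤ (Finset.range Y0).card :=
            Finset.card_le_card fun q hq => Finset.mem_range.2 (Finset.mem_filter.1 hq).2
        _ = Y0 := Finset.card_range Y0
    calc ∑ q ∈ Q.filter (fun q => q < Y0), F q
        ≤ (Q.filter (fun q => q < Y0)).card •
          (ε / (2 * Y0 * (Real.log Y0 + 1)) * Real.log Y0) := Finset.sum_le_card_nsmul _ _ _ hb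
      _ ≤ Y0 • (ε / (2 * Y0 * (Real.log Y0 + 1)) * Real.log Y0) :=
          nsmul_le_nsmul_left (by positivity) hc
      _ = ε / 2 * (Real.log Y0 / (Real.log Y0 + 1)) := by
          rw [nsmul_eq_mul]
          field_simp
      _ ≤ ε / 2 * 1 := by
          refine mul_le_mul_of_nonneg_left ?_ (by positivity)
          rw [div_le_one (by positivity)]
          linarith
      _ = ε / 2 := mul_one _
  have part2 : ∑ q ∈ Q.filter (fun q => ¬ q < Y0), F q ≤ ε / 2 := by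
    have hb : ∀ q ∈ Q.filter (fun q => ¬ q < Y0), F q ≤ 2 * (q : ℝ) ^ (-(7 / 8) : ℝ) := by
      intro q hq
      rw [Finset.mem_filter, hQ, Finset.mem_filter] at hq
      obtain ⟨⟨hq1, -⟩, -⟩ := hq
      refine hFle q hq1 _ (by positivity) fun p hp hn => ?_
      have hpp := (hS X p hp).1
      have hqp := (hS X q hq1).1
      refine le_trans ?_ (prod_bound hpp.two_le hqp.two_le hs1 hθ1 hn.2)
      exact mul_le_mul (hu p hpp).1 (hu q hqp).1 (abs_nonneg _) (by positivity)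
    refine (Finset.sum_le_sum hb).trans ?_
    have h3 := set_sum (fun q : ℕ => 2 * (q : ℝ) ^ (-(7 / 8) : ℝ))
      (fun q : ℕ => 32 * (q : ℝ) ^ (-(1 / 8) : ℝ)) (Q.filter (fun q => ¬ q < Y0))
      (32 * (Y0 : ℝ) ^ (-(1 / 8) : ℝ)) (by positivity) ?_ ?_ ?_
    · refine h3.trans ?_
      linarith
    · intro q hq
      rw [Finset.mem_filter] at hq
      have : (Y0 : ℝ) ≤ q := by exact_mod_cast not_lt.1 hq.2
      have := Real.rpow_le_rpow_of_nonpos (z := -(1 / 8)) hYp this (by norm_num)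
      linarith
    · intro q hq
      rw [Finset.mem_filter] at hq
      have h4 : (1 : ℝ) ≤ q := by
        have : 1 ≤ q := hY1.trans (not_lt.1 hq.2)
        exact_mod_cast this
      have h5 : (q : ℝ) ^ (-(7 / 8) : ℝ) ≤ (q : ℝ) ^ (-(1 / 8) : ℝ) :=
        Real.rpow_le_rpow_of_exponent_le h4 (by norm_num)
      have h6 : 0 ≤ (q : ℝ) ^ (-(1 / 8) : ℝ) := by positivity
      linarith
    · intro a ha b hb' c hc hab hbc
      rw [Finset.mem_filter, hQ, Finset.mem_filter] at ha hb' hc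
      obtain ⟨⟨ha1, pa, hpa, na⟩, ha2⟩ := ha
      obtain ⟨⟨hb1, pb, hpb, nb⟩, -⟩ := hb'
      obtain ⟨⟨hc1, pc, hpc, nc⟩, -⟩ := hc
      have h4 := claim hs1 hs2 hθ0 hθ (hS X pa hpa).1.one_le (hS X pb hpb).1.one_le
        (hS X pc hpc).1.one_le (hS X pa hpa).2 (hS X pb hpb).2 (hS X pc hpc).2
        (hS X a ha1).1.two_le hab hbc (hS X c hc1).2 na.2 nb.2 nc.2 (Ne.symm na.1)
      have h5 : (1 : ℝ) ≤ a := by exact_mod_cast (hS X a ha1).1.one_le
      exact tele h5 (quarter (hab.trans hbc) h4)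
  linarith

end Pool.Agent.Y429.LP
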