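import Mathlib

/-! Few integer points near the curve `p = q ^ s`. -/

set_option autoImplicit false

namespace Pool.Agent.Y429.LP

open Set

/-- second differences and second derivatives -/
lemma slope_diff {g g' g'' : ℝ → ℝ} {a b c m : ℝ} (hab : a < b) (hbc : b < c)
    (h1 : ∀ x ∈ Icc a c, HasDerivAt g (g' x) x) (h2 : ∀ x ∈ Icc a c, HasDerivAt g' (g'' x) x)
    (hm : ∀ x ∈ Icc a c, m ≤ g'' x) :
    m * (c - a) / 2 ≤ (g c - g b) / (c - b) - (g b - g a) / (b - a) := by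
  have H1 : ∀ x ∈ Icc a c, HasDerivAt (fun x => g x - m * x ^ 2 / 2) (g' x - m * x) x := by
    intro x hx
    have h : HasDerivAt (fun x => g x - m * x ^ 2 / 2)
        (g' x - m * (((2 : ℕ) : ℝ) * x ^ (2 - 1)) / 2) x :=
      (h1 x hx).sub (((hasDerivAt_pow 2 x).const_mul m).div_const 2)
    refine h.congr_deriv ?_
    rw [show (2 - 1 : ℕ) = 1 from rfl, pow_one]
    push_cast
    ring
  have H2 : ∀ x ∈ Icc a c, HasDerivAt (fun x => g' x - m * x) (g'' x - m) x := by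
    intro x hx
    have h : HasDerivAt (fun x => g' x - m * x) (g'' x - m * 1) x :=
      (h2 x hx).sub ((hasDerivAt_id x).const_mul m)
    refine h.congr_deriv ?_
    rw [mul_one]
  obtain ⟨x1, hx1, e1⟩ := exists_hasDerivAt_eq_slope (fun x => g x - m * x ^ 2 / 2)
    (fun x => g' x - m * x) hab
    (fun x hx => (H1 x ⟨hx.1, hx.2.trans hbc.le⟩).continuousAt.continuousWithinAt)
    (fun x hx => H1 x ⟨hx.1.le, hx.2.le.trans hbc.le⟩)
  obtain ⟨x2, hx2, e2⟩ := exists_hasDerivAt_eq_slope (fun x => g x - m * x ^ 2 / 2)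
    (fun x => g' x - m * x) hbc
    (fun x hx => (H1 x ⟨hab.le.trans hx.1, hx.2⟩).continuousAt.continuousWithinAt)
    (fun x hx => H1 x ⟨hab.le.trans hx.1.le, hx.2.le⟩)
  have hx12 : x1 < x2 := hx1.2.trans hx2.1
  obtain ⟨x3, hx3, e3⟩ := exists_hasDerivAt_eq_slope (fun x => g' x - m * x)
    (fun x => g'' x - m) hx12
    (fun x hx => (H2 x ⟨hx1.1.le.trans hx.1, hx.2.trans hx2.2.le⟩).continuousAt.continuousWithinAt)
    (fun x hx => H2 x ⟨hx1.1.le.trans hx.1.le, hx.2.le.trans hx2.2.le⟩)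
  have h3 : 0 ≤ g'' x3 - m := by
    have := hm x3 ⟨hx1.1.le.trans hx3.1.le, hx3.2.le.trans hx2.2.le⟩
    linarith
  have h4 : (g' x1 - m * x1) ≤ (g' x2 - m * x2) := by
    have h5 : 0 < x2 - x1 := by linarith
    have h6 : 0 ≤ ((g' x2 - m * x2) - (g' x1 - m * x1)) / (x2 - x1) := by
      rw [← e3]
      exact h3
    have h7 : 0 ≤ ((g' x2 - m * x2) - (g' x1 - m * x1)) / (x2 - x1) * (x2 - x1) :=
      mul_nonneg h6 h5.le
    rw [div_mul_cancel₀ _ h5.ne'] at h7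
    linarith
  rw [e1, e2] at h4
  have hba : 0 < b - a := by linarith
  have hcb : 0 < c - b := by linarith
  have e4 : (g b - m * b ^ 2 / 2 - (g a - m * a ^ 2 / 2)) / (b - a) =
      (g b - g a) / (b - a) - m * (a + b) / 2 := by
    field_simp
    ring
  have e5 : (g c - m * c ^ 2 / 2 - (g b - m * b ^ 2 / 2)) / (c - b) =
      (g c - g b) / (c - b) - m * (b + c) / 2 := by
    field_simp
    ring
  rw [e4, e5] at h4
  linarith

/-- the determinant -/
def Dt (q1 q2 q3 p1 p2 p3 : ℝ) : ℝ := (q2 - q1) * (p3 - p1) - (q3 - q1) * (p2 - p1)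

lemma Dt_slope {q1 q2 q3 p1 p2 p3 : ℝ} (h12 : q1 < q2) (h23 : q2 < q3) :
    Dt q1 q2 q3 p1 p2 p3 = (q2 - q1) * (q3 - q2) *
      ((p3 - p2) / (q3 - q2) - (p2 - p1) / (q2 - q1)) := by
  unfold Dt
  have h1 : q2 - q1 ≠ 0 := by linarith
  have h2 : q3 - q2 ≠ 0 := by linarith
  field_simp
  ring

lemma Dt_diff {q1 q2 q3 p1 p2 p3 g1 g2 g3 X δ : ℝ} (h12 : q1 < q2) (h23 : q2 < q3)
    (hX : q3 - q1 ≤ X) (h1 : |p1 - g1| ≤ δ) (h2 : |p2 - g2| ≤ δ) (h3 : |p3 - g3| ≤ δ) :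
    |Dt q1 q2 q3 p1 p2 p3 - Dt q1 q2 q3 g1 g2 g3| ≤ 4 * X * δ := by
  have e : Dt q1 q2 q3 p1 p2 p3 - Dt q1 q2 q3 g1 g2 g3 =
      (q2 - q1) * ((p3 - g3) - (p1 - g1)) - (q3 - q1) * ((p2 - g2) - (p1 - g1)) := by
    unfold Dt
    ring
  rw [e]
  have hδ : 0 ≤ δ := (abs_nonneg _).trans h1
  have a1 : |(q2 - q1) * ((p3 - g3) - (p1 - g1))| ≤ X * (2 * δ) := by
    rw [abs_mul, abs_of_pos (by linarith : 0 < q2 - q1)]
    refine mul_le_mul (by linarith) ?_ (abs_nonneg _) (by linarith)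
    have := abs_sub (p3 - g3) (p1 - g1)
    linarith
  have a2 : |(q3 - q1) * ((p2 - g2) - (p1 - g1))| ≤ X * (2 * δ) := by
    rw [abs_mul, abs_of_pos (by linarith : 0 < q3 - q1)]
    refine mul_le_mul (by linarith) ?_ (abs_nonneg _) (by linarith)
    have := abs_sub (p2 - g2) (p1 - g1)
    linarith
  have := abs_sub ((q2 - q1) * ((p3 - g3) - (p1 - g1))) ((q3 - q1) * ((p2 - g2) - (p1 - g1)))
  linarith

/-- logarithms of different integers -/
lemma log_gap {p q X : ℕ} (hp : 1 ≤ p) (hq : 1 ≤ q) (hpX : p ≤ X) (hqX : q ≤ X) (h : p ≠ q) :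
    1 / (X : ℝ) ≤ |Real.log p - Real.log q| := by
  have key : ∀ a b : ℕ, 1 ≤ a → a < b → b ≤ X → 1 / (X : ℝ) ≤ Real.log b - Real.log a := by
    intro a b ha hab hb
    have ha' : (0 : ℝ) < a := by exact_mod_cast ha
    have hb' : (0 : ℝ) < b := by exact_mod_cast (ha.trans hab.le)
    have hX' : (0 : ℝ) < X := by exact_mod_cast ((ha.trans hab.le).trans hb)
    rw [← Real.log_div hb'.ne' ha'.ne']
    have h1 := Real.one_sub_inv_le_log_of_pos (div_pos hb' ha')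
    have h2 : 1 / (X : ℝ) ≤ 1 - ((b : ℝ) / a)⁻¹ := by
      rw [inv_div]
      have h3 : 1 - (a : ℝ) / b = (b - a) / b := by field_simp
      rw [h3]
      have h4 : (1 : ℝ) ≤ b - a := by
        have : (a : ℝ) + 1 ≤ b := by exact_mod_cast hab
        linarith
      have h5 : (b : ℝ) ≤ X := by exact_mod_cast hb
      exact div_le_div₀ (by linarith) h4 hb' h5
    linarith
  rcases lt_or_gt_of_ne h with h | h
  · rw [abs_sub_comm]
    exact (key p q hp h hqX).trans (le_abs_self _)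
  · exact (key q p hq h hpX).trans (le_abs_self _)

/-- `p` is close to `q ^ s` -/
lemma close {p q : ℕ} {X θ s : ℝ} (hp : 1 ≤ p) (hq : 1 ≤ q) (hpX : (p : ℝ) ≤ X)
    (hθ : θ ≤ 1) (h : |Real.log p - s * Real.log q| ≤ θ) :
    |(p : ℝ) - (q : ℝ) ^ s| ≤ 2 * θ * X := by
  have hp' : (0 : ℝ) < p := by exact_mod_cast hp
  have hq' : (0 : ℝ) < q := by exact_mod_cast hq
  have h1 : (q : ℝ) ^ s = p * Real.exp (-(Real.log p - s * Real.log q)) := by
    rw [Real.rpow_def_of_pos hq', neg_sub, Real.exp_sub, Real.exp_log hp', mul_comm s]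
    field_simp
  have h2 := Real.abs_exp_sub_one_le (x := -(Real.log p - s * Real.log q))
    (by rw [abs_neg]; exact h.trans hθ)
  rw [abs_neg] at h2
  have h3 : (p : ℝ) - (q : ℝ) ^ s = -(p * (Real.exp (-(Real.log p - s * Real.log q)) - 1)) := by
    rw [h1]
    ring
  rw [h3, abs_neg, abs_mul, abs_of_pos hp']
  calc (p : ℝ) * |Real.exp (-(Real.log p - s * Real.log q)) - 1| ≤ X * (2 * θ) :=
        mul_le_mul hpX (h2.trans (by linarith)) (abs_nonneg _) (hp'.le.trans hpX)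
    _ = _ := by ring

end Pool.Agent.Y429.LP
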