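import Pool.Agent.Y429.LP.Base

/-! Few integer points near the curve `p = q ^ s`: three points are not close. -/

set_option autoImplicit false

namespace Pool.Agent.Y429.LP

open Set

lemma small_of {θ Y : ℝ} (hθ0 : 0 ≤ θ) (hY : 4 ≤ Y) (hθ : θ * Y ^ 32 ≤ 1) :
    θ * Y ^ 6 ≤ 1 / 4 ^ 26 := by
  rw [le_div_iff₀ (by positivity)]
  have h1 : (4 : ℝ) ^ 26 ≤ Y ^ 26 := pow_le_pow_left₀ (by norm_num) hY 26
  calc θ * Y ^ 6 * 4 ^ 26 ≤ θ * Y ^ 6 * Y ^ 26 := by gcongr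
    _ = θ * Y ^ 32 := by ring
    _ ≤ 1 := hθ

lemma amgm (a b : ℝ) : a * b ≤ (a + b) ^ 2 / 4 := by nlinarith [sq_nonneg (a - b)]

lemma deriv2 (σ s x : ℝ) (hx : 0 < x) :
    HasDerivAt (fun x : ℝ => σ * x ^ s) (σ * (s * x ^ (s - 1))) x ∧
    HasDerivAt (fun x : ℝ => σ * (s * x ^ (s - 1))) (σ * (s * ((s - 1) * x ^ (s - 1 - 1)))) x := by
  constructor
  · exact (Real.hasDerivAt_rpow_const (Or.inl hx.ne')).const_mul σ
  · exact ((Real.hasDerivAt_rpow_const (Or.inl hx.ne')).const_mul s).const_mul σ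

lemma slope_bounds {q1 q2 q3 Y s : ℝ} (hs1 : 7 / 8 ≤ s) (hs2 : s ≤ 9 / 8) (h1 : 1 ≤ q1)
    (h12 : q1 < q2) (h23 : q2 < q3) (hY : q3 ≤ Y) :
    s * |s - 1| * (Y ^ 2)⁻¹ * (q3 - q1) / 2 ≤
      |(q3 ^ s - q2 ^ s) / (q3 - q2) - (q2 ^ s - q1 ^ s) / (q2 - q1)| ∧
    |(q3 ^ s - q2 ^ s) / (q3 - q2) - (q2 ^ s - q1 ^ s) / (q2 - q1)| ≤
      s * |s - 1| * q1 ^ (-(3 / 4) : ℝ) * (q3 - q1) / 2 := by
  obtain ⟨σ, hσ1, hσ2⟩ : ∃ σ : ℝ, (σ = 1 ∨ σ = -1) ∧ σ * (s - 1) = |s - 1| := by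
    rcases le_total 0 (s - 1) with h | h
    · exact ⟨1, Or.inl rfl, by rw [abs_of_nonneg h, one_mul]⟩
    · exact ⟨-1, Or.inr rfl, by rw [abs_of_nonpos h]; ring⟩
  have hσa : |σ| = 1 := by rcases hσ1 with h | h <;> rw [h] <;> norm_num
  have hY1 : 1 ≤ Y := by linarith
  have pos : ∀ x ∈ Icc q1 q3, 0 < x := fun x hx => by linarith [hx.1]
  have ex1 : ∀ x ∈ Icc q1 q3, (Y ^ 2)⁻¹ ≤ x ^ (s - 1 - 1) := by
    intro x hx
    have h2 : Y ^ (s - 1 - 1) ≤ x ^ (s - 1 - 1) :=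
      Real.rpow_le_rpow_of_nonpos (pos x hx) (hx.2.trans hY) (by linarith)
    have h3 : Y ^ (-2 : ℝ) ≤ Y ^ (s - 1 - 1) :=
      Real.rpow_le_rpow_of_exponent_le hY1 (by linarith)
    have h4 : Y ^ (-2 : ℝ) = (Y ^ 2)⁻¹ := by
      rw [Real.rpow_neg (by linarith)]
      norm_num
    rw [← h4]
    exact h3.trans h2
  have ex2 : ∀ x ∈ Icc q1 q3, x ^ (s - 1 - 1) ≤ q1 ^ (-(3 / 4) : ℝ) := by
    intro x hx
    have h2 : x ^ (s - 1 - 1) ≤ q1 ^ (s - 1 - 1) :=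
      Real.rpow_le_rpow_of_nonpos (by linarith) hx.1 (by linarith)
    exact h2.trans (Real.rpow_le_rpow_of_exponent_le h1 (by linarith))
  have hA : 0 ≤ s * |s - 1| := mul_nonneg (by linarith) (abs_nonneg _)
  have b1 := slope_diff (g := fun x : ℝ => σ * x ^ s) (g' := fun x => σ * (s * x ^ (s - 1)))
    (g'' := fun x => σ * (s * ((s - 1) * x ^ (s - 1 - 1)))) (m := s * |s - 1| * (Y ^ 2)⁻¹) h12 h23
    (fun x hx => (deriv2 σ s x (pos x hx)).1) (fun x hx => (deriv2 σ s x (pos x hx)).2)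
    (fun x hx => by
      have e : σ * (s * ((s - 1) * x ^ (s - 1 - 1))) = s * (σ * (s - 1)) * x ^ (s - 1 - 1) := by
        ring
      rw [e, hσ2]
      exact mul_le_mul_of_nonneg_left (ex1 x hx) hA)
  have b2 := slope_diff (g := fun x : ℝ => (-σ) * x ^ s)
    (g' := fun x => (-σ) * (s * x ^ (s - 1)))
    (g'' := fun x => (-σ) * (s * ((s - 1) * x ^ (s - 1 - 1))))
    (m := -(s * |s - 1| * q1 ^ (-(3 / 4) : ℝ))) h12 h23
    (fun x hx => (deriv2 (-σ) s x (pos x hx)).1) (fun x hx => (deriv2 (-σ) s x (pos x hx)).2)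
    (fun x hx => by
      have e : (-σ) * (s * ((s - 1) * x ^ (s - 1 - 1))) =
          -(s * (σ * (s - 1)) * x ^ (s - 1 - 1)) := by
        ring
      rw [e, hσ2]
      have := mul_le_mul_of_nonneg_left (ex2 x hx) hA
      linarith)
  obtain ⟨S, hS⟩ : ∃ S, S = (q3 ^ s - q2 ^ s) / (q3 - q2) - (q2 ^ s - q1 ^ s) / (q2 - q1) :=
    ⟨_, rfl⟩
  have c1 : (σ * q3 ^ s - σ * q2 ^ s) / (q3 - q2) - (σ * q2 ^ s - σ * q1 ^ s) / (q2 - q1) =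
      σ * S := by
    rw [hS]
    ring
  have c2 : ((-σ) * q3 ^ s - (-σ) * q2 ^ s) / (q3 - q2) -
      ((-σ) * q2 ^ s - (-σ) * q1 ^ s) / (q2 - q1) = -(σ * S) := by
    rw [hS]
    ring
  rw [c1] at b1
  rw [c2] at b2
  rw [← hS]
  have h0 : 0 ≤ s * |s - 1| * (Y ^ 2)⁻¹ * (q3 - q1) / 2 := by
    have : 0 ≤ q3 - q1 := by linarith
    positivity
  have e : |S| = σ * S := by
    rw [← abs_of_nonneg (h0.trans b1), abs_mul, hσa, one_mul]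
  rw [e]
  exact ⟨b1, by linarith⟩

theorem claim {p1 p2 p3 q1 q2 q3 X : ℕ} {θ s : ℝ} (hs1 : 7 / 8 ≤ s) (hs2 : s ≤ 9 / 8)
    (hθ0 : 0 ≤ θ) (hθ : θ * (X : ℝ) ^ 32 ≤ 1) (hp1 : 1 ≤ p1) (hp2 : 1 ≤ p2) (hp3 : 1 ≤ p3)
    (hX1 : p1 ≤ X) (hX2 : p2 ≤ X) (hX3 : p3 ≤ X) (hq1 : 2 ≤ q1) (h12 : q1 < q2) (h23 : q2 < q3)
    (hq3 : q3 ≤ X) (n1 : |Real.log p1 - s * Real.log q1| ≤ θ)
    (n2 : |Real.log p2 - s * Real.log q2| ≤ θ) (n3 : |Real.log p3 - s * Real.log q3| ≤ θ)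
    (hne : p1 ≠ q1) : (q1 : ℝ) ≤ ((q3 : ℝ) - q1) ^ 4 := by
  by_contra hcon
  push Not at hcon
  have hX4 : 4 ≤ X := by omega
  obtain ⟨Y, hY⟩ : ∃ Y : ℝ, Y = (X : ℝ) := ⟨_, rfl⟩
  have hY4 : 4 ≤ Y := by rw [hY]; exact_mod_cast hX4
  rw [← hY] at hθ
  have hsm := small_of hθ0 hY4 hθ
  have hpw : ∀ k ≤ 6, θ * Y ^ k ≤ 1 / 4 ^ 26 := fun k hk =>
    (mul_le_mul_of_nonneg_left (pow_le_pow_right₀ (by linarith) hk) hθ0).trans hsm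
  have hθ1 : θ ≤ 1 := by
    have := hpw 0 (by norm_num)
    norm_num at this
    linarith
  have r1 : (2 : ℝ) ≤ q1 := by exact_mod_cast hq1
  have r12 : (q1 : ℝ) + 1 ≤ q2 := by exact_mod_cast h12
  have r23 : (q2 : ℝ) + 1 ≤ q3 := by exact_mod_cast h23
  have r3 : (q3 : ℝ) ≤ Y := by rw [hY]; exact_mod_cast hq3
  have y1 : (p1 : ℝ) ≤ Y := by rw [hY]; exact_mod_cast hX1
  have y2 : (p2 : ℝ) ≤ Y := by rw [hY]; exact_mod_cast hX2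
  have y3 : (p3 : ℝ) ≤ Y := by rw [hY]; exact_mod_cast hX3
  obtain ⟨d, hd⟩ : ∃ d : ℝ, d = (q3 : ℝ) - q1 := ⟨_, rfl⟩
  have hd2 : 2 ≤ d := by rw [hd]; linarith
  rw [← hd] at hcon
  obtain ⟨g1, hg1⟩ : ∃ g : ℝ, g = (q1 : ℝ) ^ s := ⟨_, rfl⟩
  obtain ⟨g2, hg2⟩ : ∃ g : ℝ, g = (q2 : ℝ) ^ s := ⟨_, rfl⟩
  obtain ⟨g3, hg3⟩ : ∃ g : ℝ, g = (q3 : ℝ) ^ s := ⟨_, rfl⟩
  have k1 := close (X := Y) hp1 (by omega : 1 ≤ q1) y1 hθ1 n1
  have k2 := close (X := Y) hp2 (by omega : 1 ≤ q2) y2 hθ1 n2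
  have k3 := close (X := Y) hp3 (by omega : 1 ≤ q3) y3 hθ1 n3
  rw [← hg1] at k1
  rw [← hg2] at k2
  rw [← hg3] at k3
  obtain ⟨sl, su⟩ := slope_bounds hs1 hs2 (by linarith : (1 : ℝ) ≤ q1)
    (by linarith : (q1 : ℝ) < q2) (by linarith : (q2 : ℝ) < q3) r3
  rw [← hg1, ← hg2, ← hg3, ← hd] at sl su
  have hDs := Dt_slope (p1 := g1) (p2 := g2) (p3 := g3) (by linarith : (q1 : ℝ) < q2)
    (by linarith : (q2 : ℝ) < q3)
  have hdiff := Dt_diff (X := Y) (by linarith : (q1 : ℝ) < q2) (by linarith : (q2 : ℝ) < q3)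
    (by linarith) k1 k2 k3
  obtain ⟨S, hS⟩ : ∃ S, S = |(g3 - g2) / ((q3 : ℝ) - q2) - (g2 - g1) / ((q2 : ℝ) - q1)| :=
    ⟨_, rfl⟩
  rw [← hS] at sl su
  have hprod1 : 1 ≤ ((q2 : ℝ) - q1) * (q3 - q2) :=
    one_le_mul_of_one_le_of_one_le (by linarith) (by linarith)
  have hprod2 : ((q2 : ℝ) - q1) * (q3 - q2) ≤ d ^ 2 / 4 := by
    have e := amgm ((q2 : ℝ) - q1) (q3 - q2)
    have e' : ((q2 : ℝ) - q1) + (q3 - q2) = d := by rw [hd]; ring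
    rwa [e'] at e
  have hDabs : |Dt q1 q2 q3 g1 g2 g3| = ((q2 : ℝ) - q1) * (q3 - q2) * S := by
    rw [hDs, abs_mul, abs_of_pos (by linarith), hS]
  have hS0 : 0 ≤ S := by rw [hS]; exact abs_nonneg _
  have hA0 : 0 ≤ s * |s - 1| := mul_nonneg (by linarith) (abs_nonneg _)
  -- upper bound
  have hs18 : |s - 1| ≤ 1 / 8 := by
    rw [abs_le]
    constructor <;> linarith
  have hA1 : s * |s - 1| ≤ 9 / 64 := by
    have := mul_le_mul hs2 hs18 (abs_nonneg _) (by norm_num)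
    linarith
  have hd3 : d ^ 3 * (q1 : ℝ) ^ (-(3 / 4) : ℝ) ≤ 1 := by
    have e1 : d ^ 3 ≤ (q1 : ℝ) ^ (3 / 4 : ℝ) := by
      have e2 : d ^ 3 = (d ^ 4) ^ (3 / 4 : ℝ) := by
        rw [← Real.rpow_natCast, ← Real.rpow_natCast, ← Real.rpow_mul (by linarith)]
        norm_num
      rw [e2]
      exact Real.rpow_le_rpow (by positivity) hcon.le (by norm_num)
    have e3 : (q1 : ℝ) ^ (3 / 4 : ℝ) * (q1 : ℝ) ^ (-(3 / 4) : ℝ) = 1 := by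
      rw [← Real.rpow_add (by linarith)]
      norm_num
    rw [← e3]
    exact mul_le_mul_of_nonneg_right e1 (Real.rpow_nonneg (by linarith) _)
  have hup : |Dt q1 q2 q3 g1 g2 g3| ≤ 1 / 4 := by
    rw [hDabs]
    calc ((q2 : ℝ) - q1) * (q3 - q2) * S
        ≤ d ^ 2 / 4 * (s * |s - 1| * (q1 : ℝ) ^ (-(3 / 4) : ℝ) * d / 2) :=
          mul_le_mul hprod2 su hS0 (by positivity)
      _ = s * |s - 1| * (d ^ 3 * (q1 : ℝ) ^ (-(3 / 4) : ℝ)) / 8 := by ring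
      _ ≤ s * |s - 1| * 1 / 8 := by gcongr
      _ ≤ 1 / 4 := by linarith
  have hdf : |Dt q1 q2 q3 p1 p2 p3 - Dt q1 q2 q3 g1 g2 g3| ≤ 8 * (θ * Y ^ 2) := by
    refine hdiff.trans (le_of_eq ?_)
    ring
  have h2 := hpw 2 (by norm_num)
  have hlt : |Dt q1 q2 q3 p1 p2 p3| < 1 := by
    have e := abs_sub_abs_le_abs_sub (Dt q1 q2 q3 p1 p2 p3) (Dt q1 q2 q3 g1 g2 g3)
    have e4 : (1 : ℝ) / 4 ^ 26 ≤ 1 / 32 := by norm_num
    linarith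
  -- the determinant is an integer
  have hD0 : Dt (q1 : ℝ) q2 q3 p1 p2 p3 = 0 := by
    have e1 : Dt (q1 : ℝ) q2 q3 p1 p2 p3 =
        ((((q2 : ℤ) - q1) * (p3 - p1) - (q3 - q1) * (p2 - p1) : ℤ) : ℝ) := by
      unfold Dt
      push_cast
      ring
    rw [e1] at hlt ⊢
    rw [← Int.cast_abs] at hlt
    have e2 : |((q2 : ℤ) - q1) * (p3 - p1) - (q3 - q1) * (p2 - p1)| < 1 := by exact_mod_cast hlt
    rw [Int.abs_lt_one_iff.1 e2]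
    norm_num
  rw [hD0, zero_sub, abs_neg] at hdf
  -- lower bound
  have hlow : s * |s - 1| * (Y ^ 2)⁻¹ ≤ |Dt q1 q2 q3 g1 g2 g3| := by
    rw [hDabs]
    have e0 : 0 ≤ s * |s - 1| * (Y ^ 2)⁻¹ := by positivity
    have e9 := mul_le_mul_of_nonneg_left hd2 e0
    calc s * |s - 1| * (Y ^ 2)⁻¹ ≤ s * |s - 1| * (Y ^ 2)⁻¹ * d / 2 := by linarith
      _ ≤ S := sl
      _ ≤ ((q2 : ℝ) - q1) * (q3 - q2) * S := le_mul_of_one_le_left hS0 hprod1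
  have hgap : 1 / Y ≤ θ + |s - 1| * Y := by
    have e1 := log_gap hp1 (by omega : 1 ≤ q1) hX1 (by omega : q1 ≤ X) hne
    rw [← hY] at e1
    have e2 : Real.log p1 - Real.log q1 = (Real.log p1 - s * Real.log q1) +
        (s - 1) * Real.log q1 := by ring
    have e3 : |Real.log p1 - Real.log q1| ≤ |Real.log p1 - s * Real.log q1| +
        |(s - 1) * Real.log q1| := by
      rw [e2]
      exact abs_add_le _ _
    have e4 : 0 ≤ Real.log q1 := Real.log_nonneg (by linarith)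
    have e5 : Real.log q1 ≤ Y := (Real.log_le_self (by linarith)).trans (by linarith)
    rw [abs_mul, abs_of_nonneg e4] at e3
    have e6 : |s - 1| * Real.log q1 ≤ |s - 1| * Y :=
      mul_le_mul_of_nonneg_left e5 (abs_nonneg _)
    linarith
  have hY0 : 0 < Y := by linarith
  have hsY : 1 / 2 ≤ |s - 1| * Y ^ 2 := by
    have e1 : 1 ≤ (θ + |s - 1| * Y) * Y := by
      rw [div_le_iff₀ hY0] at hgap
      exact hgap
    have e2 := hpw 1 (by norm_num)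
    have e4 : (1 : ℝ) / 4 ^ 26 ≤ 1 / 32 := by norm_num
    rw [pow_one] at e2
    have e3 : (θ + |s - 1| * Y) * Y = θ * Y + |s - 1| * Y ^ 2 := by ring
    rw [e3] at e1
    linarith
  have hfin : s * |s - 1| * (Y ^ 2)⁻¹ ≤ 8 * (θ * Y ^ 2) := hlow.trans hdf
  have hfin2 : s * |s - 1| * Y ^ 2 ≤ 8 * (θ * Y ^ 6) := by
    have e1 := mul_le_mul_of_nonneg_right hfin (by positivity : 0 ≤ Y ^ 4)
    have e2 : s * |s - 1| * (Y ^ 2)⁻¹ * Y ^ 4 = s * |s - 1| * Y ^ 2 := by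
      field_simp
    have e3 : 8 * (θ * Y ^ 2) * Y ^ 4 = 8 * (θ * Y ^ 6) := by ring
    rwa [e2, e3] at e1
  have e4 : (1 : ℝ) / 4 ^ 26 ≤ 1 / 32 := by norm_num
  have e5 : 7 / 8 * (|s - 1| * Y ^ 2) ≤ s * (|s - 1| * Y ^ 2) :=
    mul_le_mul_of_nonneg_right hs1 (by positivity)
  have e6 : s * (|s - 1| * Y ^ 2) = s * |s - 1| * Y ^ 2 := by ring
  linarith

end Pool.Agent.Y429.LP
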