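import Pool.Agent.Y429.LP.Claim

/-! Few integer points near the curve `p = q ^ s`: sums. -/

set_option autoImplicit false

namespace Pool.Agent.Y429.LP

open Set

/-- the bound for a list -/
def G (h : ℕ → ℝ) : List ℕ → ℝ
  | [] => 0
  | [a] => h a
  | a :: b :: _ => h a + h b

lemma list_sum (f h : ℕ → ℝ) : ∀ l : List ℕ, l.Pairwise (· < ·) → (∀ a ∈ l, f a ≤ h a) →
    (∀ a ∈ l, ∀ b ∈ l, ∀ c ∈ l, a < b → b < c → f a ≤ h a - h c) → (l.map f).sum ≤ G h l
  | [], _, _, _ => by simp [G]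
  | [a], _, h1, _ => by
    have := h1 a (by simp)
    simpa [G] using this
  | [a, b], _, h1, _ => by
    have e1 := h1 a (by simp)
    have e2 := h1 b (by simp)
    simp only [G, List.map_cons, List.map_nil, List.sum_cons, List.sum_nil]
    linarith
  | a :: b :: c :: l, hp, h1, h2 => by
    have ih := list_sum f h (b :: c :: l) (List.pairwise_cons.1 hp).2
      (fun x hx => h1 x (List.mem_cons_of_mem _ hx))
      (fun x hx y hy z hz => h2 x (List.mem_cons_of_mem _ hx) y (List.mem_cons_of_mem _ hy) z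
        (List.mem_cons_of_mem _ hz))
    have hab : a < b := (List.pairwise_cons.1 hp).1 b (by simp)
    have hbc : b < c := (List.pairwise_cons.1 (List.pairwise_cons.1 hp).2).1 c (by simp)
    have e1 := h2 a (by simp) b (by simp) c (by simp) hab hbc
    rw [List.map_cons, List.sum_cons]
    simp only [G] at ih ⊢
    linarith

lemma set_sum (f h : ℕ → ℝ) (Q : Finset ℕ) (B : ℝ) (hB : 0 ≤ B) (h0 : ∀ a ∈ Q, h a ≤ B)
    (h1 : ∀ a ∈ Q, f a ≤ h a)
    (h2 : ∀ a ∈ Q, ∀ b ∈ Q, ∀ c ∈ Q, a < b → b < c → f a ≤ h a - h c) :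
    ∑ a ∈ Q, f a ≤ 2 * B := by
  have e1 : ∑ a ∈ Q, f a = ((Q.sort (· ≤ ·)).map f).sum := by
    conv_lhs => rw [← Finset.sort_toFinset (r := (· ≤ ·)) Q]
    exact List.sum_toFinset f (Finset.sort_nodup _ _)
  have hm : ∀ a, a ∈ Q.sort (· ≤ ·) → a ∈ Q := fun a ha => (Finset.mem_sort _).1 ha
  have e2 := list_sum f h (Q.sort (· ≤ ·)) (Finset.sortedLT_sort Q).pairwise
    (fun a ha => h1 a (hm a ha))
    (fun a ha b hb c hc => h2 a (hm a ha) b (hm b hb) c (hm c hc))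
  rw [e1]
  refine e2.trans ?_
  have key : ∀ l : List ℕ, (∀ a ∈ l, h a ≤ B) → G h l ≤ 2 * B := by
    intro l hl
    match l, hl with
    | [], _ => simp only [G]; linarith
    | [a], hl =>
      have := hl a (by simp)
      simp only [G]
      linarith
    | a :: b :: l, hl =>
      have e3 := hl a (by simp)
      have e4 := hl b (by simp)
      simp only [G]
      linarith
  exact key _ fun a ha => h0 a (hm a ha)

/-- telescoping -/
lemma tele {x y : ℝ} (hx : 1 ≤ x) (hy : x + x ^ (1 / 4 : ℝ) ≤ y) :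
    2 * x ^ (-(7 / 8) : ℝ) ≤ 32 * x ^ (-(1 / 8) : ℝ) - 32 * y ^ (-(1 / 8) : ℝ) := by
  have hx0 : 0 < x := by linarith
  obtain ⟨d, hd⟩ : ∃ d : ℝ, d = x ^ (1 / 4 : ℝ) := ⟨_, rfl⟩
  have hd0 : 0 < d := by rw [hd]; positivity
  have hdx : d ≤ x := by
    rw [hd]
    calc x ^ (1 / 4 : ℝ) ≤ x ^ (1 : ℝ) := Real.rpow_le_rpow_of_exponent_le hx (by norm_num)
      _ = x := Real.rpow_one x
  rw [← hd] at hy
  have h1 : y ^ (-(1 / 8) : ℝ) ≤ (x + d) ^ (-(1 / 8) : ℝ) :=
    Real.rpow_le_rpow_of_nonpos (by linarith) hy (by norm_num)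
  have h2 : (x + d) ^ (-(1 / 8) : ℝ) ≤ x ^ (-(1 / 8) : ℝ) * (1 - d / (16 * x)) := by
    have hxd : 0 < x + d := by linarith
    have e1 : (x / (x + d)) ^ (1 / 8 : ℝ) ≤ 1 + 1 / 8 * (-(d / (x + d))) := by
      have := rpow_one_add_le_one_add_mul_self (s := -(d / (x + d)))
        (by
          rw [neg_le_neg_iff, div_le_one hxd]
          linarith) (p := 1 / 8) (by norm_num) (by norm_num)
      have e2 : 1 + -(d / (x + d)) = x / (x + d) := by
        field_simp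
        ring
      rwa [e2] at this
    have e3 : (x + d) ^ (-(1 / 8) : ℝ) = x ^ (-(1 / 8) : ℝ) * (x / (x + d)) ^ (1 / 8 : ℝ) := by
      rw [Real.div_rpow hx0.le hxd.le, Real.rpow_neg hx0.le, Real.rpow_neg hxd.le]
      have : x ^ (1 / 8 : ℝ) ≠ 0 := by positivity
      field_simp
    rw [e3]
    refine mul_le_mul_of_nonneg_left ?_ (by positivity)
    have e4 : d / (16 * x) ≤ 1 / 8 * (d / (x + d)) := by
      rw [show 1 / 8 * (d / (x + d)) = d / (8 * (x + d)) by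
        rw [one_div, ← div_eq_inv_mul, div_div, mul_comm]]
      exact div_le_div_of_nonneg_left hd0.le (by positivity) (by linarith)
    linarith
  have h3 : x ^ (-(1 / 8) : ℝ) * (d / (16 * x)) = x ^ (-(7 / 8) : ℝ) / 16 := by
    have e1 : x ^ (-(7 / 8) : ℝ) = x ^ (-(1 / 8) : ℝ) * (d / x) := by
      rw [hd]
      have e2 : x ^ (1 / 4 : ℝ) / x = x ^ (1 / 4 - 1 : ℝ) := by
        rw [Real.rpow_sub hx0, Real.rpow_one]
      rw [e2, ← Real.rpow_add hx0]
      norm_num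
    rw [e1]
    field_simp
  have h4 : x ^ (-(1 / 8) : ℝ) * (1 - d / (16 * x)) =
      x ^ (-(1 / 8) : ℝ) - x ^ (-(7 / 8) : ℝ) / 16 := by
    rw [mul_sub, mul_one, h3]
  linarith

/-- uniqueness of `p` -/
lemma uniq {p p' X : ℕ} {θ L : ℝ} (hθ : θ * (X : ℝ) ^ 32 ≤ 1) (hp : 2 ≤ p)
    (hp' : 2 ≤ p') (hX : p ≤ X) (hX' : p' ≤ X) (n : |Real.log p - L| ≤ θ)
    (n' : |Real.log p' - L| ≤ θ) : p = p' := by
  by_contra hne
  have h1 := log_gap (by omega : 1 ≤ p) (by omega : 1 ≤ p') hX hX' hne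
  have h2 : |Real.log p - Real.log p'| ≤ 2 * θ := by
    have e : Real.log p - Real.log p' = (Real.log p - L) - (Real.log p' - L) := by ring
    rw [e]
    have := abs_sub (Real.log p - L) (Real.log p' - L)
    linarith
  have hθ0 : 0 ≤ θ := (abs_nonneg _).trans n
  have hY2 : (2 : ℝ) ≤ X := by
    have : 2 ≤ X := hp.trans hX
    exact_mod_cast this
  have h3 : 1 ≤ 2 * θ * X := by
    rw [← div_le_iff₀ (by linarith)]
    exact h1.trans h2
  have h4 : (2 : ℝ) ^ 31 ≤ (X : ℝ) ^ 31 := pow_le_pow_left₀ (by norm_num) hY2 31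
  have h5 : 2 * θ * X * 2 ^ 31 ≤ 2 * θ * X * (X : ℝ) ^ 31 :=
    mul_le_mul_of_nonneg_left h4 (by positivity)
  have h6 : 2 * θ * X * (X : ℝ) ^ 31 = 2 * (θ * (X : ℝ) ^ 32) := by ring
  have h7 : 1 * (2 : ℝ) ^ 31 ≤ 2 * θ * X * 2 ^ 31 := mul_le_mul_of_nonneg_right h3 (by positivity)
  norm_num at h7 h5
  linarith

lemma inv_sqrt {p : ℝ} (hp : 0 < p) : 1 / Real.sqrt p = Real.exp (-(Real.log p / 2)) := by
  rw [Real.sqrt_eq_rpow, Real.rpow_def_of_pos hp, Real.exp_neg, one_div]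
  congr 2
  ring

/-- the size of the products -/
lemma prod_bound {p q : ℕ} {θ s : ℝ} (hp : 2 ≤ p) (hq : 2 ≤ q) (hs1 : 7 / 8 ≤ s) (hθ1 : θ ≤ 1)
    (n : |Real.log p - s * Real.log q| ≤ θ) :
    1 / Real.sqrt p * (1 / Real.sqrt q) ≤ 2 * (q : ℝ) ^ (-(7 / 8) : ℝ) := by
  have hp' : (0 : ℝ) < p := by
    have : 0 < p := by omega
    exact_mod_cast this
  have hq' : (1 : ℝ) ≤ q := by
    have : 1 ≤ q := by omega
    exact_mod_cast this
  have hq0 : (0 : ℝ) < q := by linarith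
  rw [inv_sqrt hp', inv_sqrt hq0, ← Real.exp_add]
  have hl : 0 ≤ Real.log q := Real.log_nonneg hq'
  have h1 : 7 / 8 * Real.log q - 1 ≤ Real.log p := by
    have e1 := (abs_le.1 n).1
    have e2 : 7 / 8 * Real.log q ≤ s * Real.log q := mul_le_mul_of_nonneg_right hs1 hl
    linarith
  have h2 : Real.exp (-(Real.log p / 2) + -(Real.log q / 2)) ≤
      Real.exp (1 / 2) * Real.exp (Real.log q * (-(7 / 8))) := by
    rw [← Real.exp_add]
    apply Real.exp_le_exp.2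
    linarith
  have h3 : Real.exp (1 / 2) ≤ 2 := by
    have e1 : Real.exp (1 / 2) ^ 2 = Real.exp 1 := by
      rw [← Real.exp_nat_mul]
      norm_num
    have e2 := Real.exp_one_lt_d9
    have e3 := Real.exp_pos (1 / 2)
    nlinarith
  rw [Real.rpow_def_of_pos hq0]
  exact h2.trans (mul_le_mul_of_nonneg_right h3 (Real.exp_pos _).le)

end Pool.Agent.Y429.LP
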